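import Pool.Agent.Y405.MixFinal

set_option autoImplicit false

namespace Pool.Agent.Results.MP_ca4ce9_co.MixedDimConjecture

open SimpleGraph

/-- Distance from a vertex `w` to an element of `V(G) ∪ E(G)`; the distance to an edge is the
smallest distance to one of its ends. -/
noncomputable def distTo {V : Type*} (G : SimpleGraph V) (w : V) : V ⊕ G.edgeSet → ℕ
  | Sum.inl v => G.dist w v
  | Sum.inr e => sInf {d : ℕ | ∃ u ∈ (e : Sym2 V), d = G.dist w u}

/-- `S` is a mixed resolving set: any two distinct elements of `V(G) ∪ E(G)` are told apart by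
the distance to some member of `S`. -/
def IsMixedResolving {V : Type*} (G : SimpleGraph V) (S : Finset V) : Prop :=
  ∀ x y : V ⊕ G.edgeSet, x ≠ y → ∃ s ∈ S, distTo G s x ≠ distTo G s y

theorem distTo_edge {V : Type*} (G : SimpleGraph V) (w a b : V) (h : s(a, b) ∈ G.edgeSet) :
    distTo G w (Sum.inr ⟨s(a, b), h⟩) = min (G.dist w a) (G.dist w b) := by
  have e : {d : ℕ | ∃ u ∈ s(a, b), d = G.dist w u} = {G.dist w a, G.dist w b} := by
    ext d
    constructor
    · rintro ⟨u, hu, rfl⟩
      rcases Sym2.mem_iff.mp hu with rfl | rfl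
      · exact Or.inl rfl
      · exact Or.inr rfl
    · rintro (rfl | rfl)
      · exact ⟨a, Sym2.mem_iff.mpr (Or.inl rfl), rfl⟩
      · exact ⟨b, Sym2.mem_iff.mpr (Or.inr rfl), rfl⟩
  show sInf {d : ℕ | ∃ u ∈ s(a, b), d = G.dist w u} = _
  rw [e]
  apply le_antisymm
  · rcases min_choice (G.dist w a) (G.dist w b) with h | h
    · rw [h]; exact Nat.sInf_le (by simp)
    · rw [h]; exact Nat.sInf_le (by simp)
  · apply le_csInf (Set.insert_nonempty _ _)
    rintro x (rfl | rfl)
    · exact min_le_left _ _
    · exact min_le_right _ _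

theorem isMixedResolving_of {V : Type*} {G : SimpleGraph V} {S : Finset V}
    (H : Pool.Agent.Y405.MixRes G (S : Set V)) : IsMixedResolving G S := by
  intro x y hxy
  rcases x with x | ⟨e, he⟩
  · rcases y with y | ⟨f, hf⟩
    · obtain ⟨s, hs, h⟩ := H.vv x y (fun h => hxy (by rw [h]))
      exact ⟨s, hs, h⟩
    · induction f using Sym2.ind with
      | _ a b =>
        obtain ⟨s, hs, h⟩ := H.ve x a b hf
        refine ⟨s, hs, ?_⟩
        rw [distTo_edge]
        exact h
  · induction e using Sym2.ind with
    | _ a b =>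
      rcases y with y | ⟨f, hf⟩
      · obtain ⟨s, hs, h⟩ := H.ve y a b he
        refine ⟨s, hs, ?_⟩
        rw [distTo_edge]
        exact h.symm
      · induction f using Sym2.ind with
        | _ c d =>
          obtain ⟨s, hs, h⟩ := H.ee a b c d he hf (fun h => hxy (by
            congr 1
            exact Subtype.ext h))
          refine ⟨s, hs, ?_⟩
          rw [distTo_edge, distTo_edge]
          exact h

/-- Every finite connected graph which is not a cycle has a mixed resolving set with at most
`l(G) + 2 c(G)` members, where `l(G)` is the number of vertices of degree one and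
`c(G) = |E| - |V| + 1`. -/
theorem result (V : Type*) [Fintype V] [DecidableEq V] (G : SimpleGraph V) [DecidableRel G.Adj]
    (hconn : G.Connected) (hcycle : ∀ n : ℕ, 3 ≤ n → IsEmpty (G ≃g cycleGraph n)) :
    ∃ S : Finset V, IsMixedResolving G S ∧
      (S.card : ℤ) ≤ ((Finset.univ.filter fun v => G.degree v = 1).card : ℤ)
        + 2 * ((G.edgeFinset.card : ℤ) - (Fintype.card V : ℤ) + 1) := by
  have hreg : ¬ ∀ v, G.degree v = 2 := by
    intro h
    obtain ⟨n, ⟨f⟩⟩ := Pool.Agent.Helper431.exists_iso_cycleGraph hconn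
      (fun v => (h v).ge) (fun v => (h v).le)
    have hn : Fintype.card V = n := by
      have := Fintype.card_congr f.toEquiv
      simpa using this
    obtain ⟨v⟩ := hconn.nonempty
    have h1 := G.degree_lt_card_verts v
    have h2 := h v
    exact (hcycle n (by omega)).false f
  obtain ⟨S, hS, hcard⟩ := Pool.Agent.Y405.bound_all hconn hreg
  exact ⟨S, isMixedResolving_of hS, by omega⟩

end Pool.Agent.Results.MP_ca4ce9_co.MixedDimConjecture
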